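import Pool.Agent.Work.MP_33efdc_lc.Poly2

open Pool.Agent.MP33 Pool.Agent.RRAM

open Classical in
/-- There is one real RAM program which decides in time polynomial in `n`, given the coordinates
of the vertices of a simple polygon with `n` vertices, whether the polygon has an Alexandrov
gluing. -/
theorem Pool.Agent.Results.MP_33efdc_lc.PolynomialTime.result :
    ∃ (P : List Instr) (k : ℕ), ∀ (n : ℕ) (z : ZMod n → ℂ), IsSimplePolygon z →
      Answers P (coords z) (n ^ k) (decide (Foldable z)) :=
  foldable_polytime
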